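import Pool.Agent.W838.DC.Stm2

/-!
DC-LFT: the lifting property of special matchings.
-/

set_option autoImplicit false

namespace Pool.Agent.W140.DC
open Pool.Agent.W838.DC Sys

variable {V X : Type*} [AddCommGroup V] (σ : Sys V X)

theorem cvReach {y z : X} (h : Cv σ y z) : σ.Reach y z := by
  obtain ⟨a, ha, hz, -⟩ := h
  exact Relation.ReflTransGen.single ⟨a, ha, hz⟩

theorem lft (h : S_CHAIN σ) : S_LFT σ := by
  intro v M hM y z hvy hyz hcz
  have key : ∀ w, Relation.ReflTransGen (Cv σ) y w →
      σ.Reach y w ∧ (σ.Reach (M y) w ∨ σ.Reach (M y) (M w)) := by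
    intro w hw
    induction hw with
    | refl => exact ⟨Relation.ReflTransGen.refl, Or.inr Relation.ReflTransGen.refl⟩
    | @tail b c hb hc ih =>
      obtain ⟨h1, h2⟩ := ih
      refine ⟨h1.trans (cvReach σ hc), ?_⟩
      rcases h2 with h2 | h2
      · exact Or.inl (h2.trans (cvReach σ hc))
      · by_cases he : M b = c
        · left; rw [← he]; exact h2
        · right
          exact h2.trans (hM.spec b c (hvy.trans h1) hc he)
  rcases (key z (h y z hyz)).2 with h1 | h1
  · exact h1
  · exact h1.trans (cvReach σ hcz)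

end Pool.Agent.W140.DC
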